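import Pool.Agent.Lib.ThinS.Gen
import Pool.Agent.Lib.ThinS.Topo

/-!
# Dense `k`-graphs without spheres

For every `δ > 0` there is `C` such that for all `k ≥ C` and `C k ≤ n ≤ exp (k^(1/4) / C)` some
`k`-graph `G` on `n` vertices has all its co-degrees at least `(1 - δ) n`, and contains no copy of
the sphere `S^(k-1)`, spanning or not; indeed in every nonempty subfamily of `G` some `(k-1)`-set
contained in a member is not contained in exactly two members, so that `G` contains no closed
`(k-1)`-manifold or pseudomanifold at all.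

Proof: a random `k`-graph and the local lemma. A connected closed pseudomanifold with `N` facets is
determined by a random sample of a small proportion of its facets, which is visited by a short walk
in the Johnson graph, so there are only `exp(o(N))` of them through a given facet. If the complex of
`H` is a sphere then every ridge is in exactly two facets: not in three by the theorem of Borsuk and
Ulam, and not in one by the fixed point theorem of Brouwer.
-/

set_option autoImplicit false

open Finset

namespace Pool.Agent.Results.MP_634482_co.NoSpheres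

theorem result (δ : ℝ) (hδ : 0 < δ) :
    ∃ C : ℝ, 0 < C ∧ ∀ k n : ℕ, C ≤ k → C * k ≤ n →
      (n : ℝ) ≤ Real.exp ((k : ℝ) ^ ((1 : ℝ) / 4) / C) →
      ∃ G : Finset (Finset (Fin n)), (∀ e ∈ G, e.card = k) ∧
        (∀ S : Finset (Fin n), S.card = k - 1 →
          (1 - δ) * n ≤ ((G.filter (fun e => S ⊆ e)).card : ℝ)) ∧
        ∀ H ⊆ G, H.Nonempty →
          (∃ S : Finset (Fin n), S.card = k - 1 ∧ (∃ e ∈ H, S ⊆ e) ∧
            (H.filter (fun e => S ⊆ e)).card ≠ 2) ∧
          IsEmpty (↥(⋃ e ∈ H, convexHull ℝ
            ((fun v : Fin n => EuclideanSpace.single v (1 : ℝ)) '' (↑e : Set (Fin n))))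
              ≃ₜ ↥(Metric.sphere (0 : EuclideanSpace ℝ (Fin k)) 1)) := by
  obtain ⟨C, hC, hmain⟩ := ThinS.exists_family_gen δ hδ
  refine ⟨max C 2, lt_of_lt_of_le hC (le_max_left _ _), ?_⟩
  intro k n hk hn hexp
  have hk0 : (0 : ℝ) ≤ k := Nat.cast_nonneg _
  have hk2 : 2 ≤ k := by
    have : (2 : ℝ) ≤ k := (le_max_right C 2).trans hk
    exact_mod_cast this
  obtain ⟨G, hG, hcod, hthin⟩ := hmain k n ((le_max_left C 2).trans hk)
    ((mul_le_mul_of_nonneg_right (le_max_left C 2) hk0).trans hn)
    (hexp.trans (Real.exp_le_exp.2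
      (div_le_div_of_nonneg_left (Real.rpow_nonneg hk0 _) hC (le_max_left C 2))))
  refine ⟨G, hG, fun S hS => hcod S (by omega), ?_⟩
  intro H hH hne
  have h1 := hthin H hH hne
  refine ⟨?_, ⟨fun φ => h1 (ThinS.thin_of_homeo hk2 H (fun e he => hG e (hH he)) φ)⟩⟩
  by_contra hcon
  apply h1
  refine ⟨fun e he => hG e (hH he), fun S hS hSe => ?_⟩
  by_contra hne2
  exact hcon ⟨S, by omega, hSe, hne2⟩

end Pool.Agent.Results.MP_634482_co.NoSpheres
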